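import Pool.Agent.Lib.ShSq.Sieve

/-!
# The mean value of `EE (a) ^ 2`
-/

open Finset

namespace Pool.Agent.ShSq

/-- the weight of a prime -/
noncomputable def cq (q : ℕ) : ℝ := Real.exp (8 / (q : ℝ)) - 1

lemma cq_nonneg (q : ℕ) : 0 ≤ cq q := by
  unfold cq
  have : 1 ≤ Real.exp (8 / (q : ℝ)) := Real.one_le_exp (by positivity)
  linarith

lemma cq_le {q : ℕ} (hq : 2 ≤ q) : cq q ≤ 8 * Real.exp 4 / q := by
  have hq2 : (2 : ℝ) ≤ q := by exact_mod_cast hq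
  have h0 : 8 / (q : ℝ) ≤ 4 := by rw [div_le_iff₀ (by linarith)]; linarith
  have h1 : 1 - 8 / (q : ℝ) ≤ Real.exp (-(8 / (q : ℝ))) := by
    have := Real.add_one_le_exp (-(8 / (q : ℝ)))
    linarith
  have h2 : 0 < Real.exp (8 / (q : ℝ)) := Real.exp_pos _
  have h3 : Real.exp (8 / (q : ℝ)) * Real.exp (-(8 / (q : ℝ))) = 1 := by
    rw [← Real.exp_add]; simp
  have h4 : cq q ≤ 8 / (q : ℝ) * Real.exp (8 / (q : ℝ)) := by
    unfold cq
    nlinarith [mul_le_mul_of_nonneg_left h1 h2.le]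
  have h5 : Real.exp (8 / (q : ℝ)) ≤ Real.exp 4 := Real.exp_le_exp.2 h0
  have h6 : 0 ≤ 8 / (q : ℝ) := by positivity
  calc cq q ≤ 8 / (q : ℝ) * Real.exp (8 / (q : ℝ)) := h4
    _ ≤ 8 / (q : ℝ) * Real.exp 4 := mul_le_mul_of_nonneg_left h5 h6
    _ = 8 * Real.exp 4 / q := by ring

lemma EE_sq (a X : ℕ) (ha : a ≠ 0) (haX : a ≤ X) :
    EE a ^ 2 = ∏ q ∈ (Ioc 0 X).filter Nat.Prime, (1 + if q ∣ a then cq q else 0) := by
  have h1 : EE a ^ 2 = ∏ q ∈ a.primeFactors, (1 + cq q) := by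
    unfold EE
    rw [← Real.exp_nat_mul, mul_sum, Real.exp_sum]
    refine prod_congr rfl fun q _ => ?_
    unfold cq
    rw [add_sub_cancel]
    congr 1
    push_cast
    ring
  rw [h1]
  have h2 : a.primeFactors = ((Ioc 0 X).filter Nat.Prime).filter fun q => q ∣ a := by
    ext q
    rw [Nat.mem_primeFactors, mem_filter, mem_filter, mem_Ioc]
    constructor
    · rintro ⟨h3, h4, -⟩
      exact ⟨⟨⟨h3.pos, (Nat.le_of_dvd (Nat.pos_of_ne_zero ha) h4).trans haX⟩, h3⟩, h4⟩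
    · rintro ⟨⟨-, h3⟩, h4⟩
      exact ⟨h3, h4, ha⟩
  rw [h2, prod_filter]
  refine prod_congr rfl fun q _ => ?_
  split_ifs <;> simp

lemma sum_EE_sq (X : ℕ) :
    ∑ a ∈ Ioc 0 X, EE a ^ 2 ≤ X * Real.exp (8 * Real.exp 4) := by
  set P := (Ioc 0 X).filter Nat.Prime with hP
  have hPp : ∀ q ∈ P, q.Prime := fun q hq => (mem_filter.1 hq).2
  have h1 : ∀ a ∈ Ioc 0 X, EE a ^ 2 = ∑ T ∈ P.powerset, (∏ q ∈ T, cq q) *
      (if (∏ q ∈ T, q) ∣ a then 1 else 0) := by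
    intro a ha
    rw [mem_Ioc] at ha
    rw [EE_sq a X (by omega) ha.2, prod_one_add]
    refine sum_congr rfl fun T hT => ?_
    rw [mem_powerset] at hT
    by_cases h : (∏ q ∈ T, q) ∣ a
    · rw [if_pos h, mul_one]
      refine prod_congr rfl fun q hq => ?_
      rw [if_pos ((dvd_prod_of_mem _ hq).trans h)]
    · rw [if_neg h, mul_zero]
      have : ∃ q ∈ T, ¬ q ∣ a := by
        by_contra hc
        push Not at hc
        refine h (Finset.prod_primes_dvd a (fun q hq => (hPp q (hT hq)).prime) hc)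
      obtain ⟨q, hq, hqa⟩ := this
      exact prod_eq_zero hq (if_neg hqa)
  rw [sum_congr rfl h1, sum_comm]
  have h2 : ∀ T ∈ P.powerset, ∑ a ∈ Ioc 0 X, (∏ q ∈ T, cq q) *
      (if (∏ q ∈ T, q) ∣ a then (1 : ℝ) else 0) ≤ X * ∏ q ∈ T, (cq q / q) := by
    intro T hT
    rw [mem_powerset] at hT
    rw [← mul_sum, ← sum_filter, sum_const, nsmul_eq_mul, mul_one, Nat.Ioc_filter_dvd_card_eq_div]
    have h3 : ((X / ∏ q ∈ T, q : ℕ) : ℝ) ≤ X / ((∏ q ∈ T, q : ℕ) : ℝ) := Nat.cast_div_le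
    have h4 : 0 ≤ ∏ q ∈ T, cq q := prod_nonneg fun q _ => cq_nonneg q
    calc (∏ q ∈ T, cq q) * ((X / ∏ q ∈ T, q : ℕ) : ℝ)
        ≤ (∏ q ∈ T, cq q) * (X / ((∏ q ∈ T, q : ℕ) : ℝ)) := mul_le_mul_of_nonneg_left h3 h4
      _ = X * ∏ q ∈ T, (cq q / q) := by
          rw [prod_div_distrib]
          push_cast
          ring
  refine (sum_le_sum h2).trans ?_
  rw [← mul_sum, ← prod_one_add]
  refine mul_le_mul_of_nonneg_left ?_ (Nat.cast_nonneg X)
  have h5 : ∏ q ∈ P, (1 + cq q / q) ≤ Real.exp (∑ q ∈ P, cq q / q) := by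
    rw [Real.exp_sum]
    refine prod_le_prod (fun q _ => ?_) fun q _ => ?_
    · have := div_nonneg (cq_nonneg q) (Nat.cast_nonneg (α := ℝ) q)
      linarith
    · have := Real.add_one_le_exp (cq q / q)
      linarith
  refine h5.trans (Real.exp_le_exp.2 ?_)
  have h6 : ∑ q ∈ P, cq q / q ≤ ∑ q ∈ Ioc 1 X, 8 * Real.exp 4 * ((q : ℝ) ^ 2)⁻¹ := by
    have h7 : P ⊆ Ioc 1 X := by
      intro q hq
      rw [hP, mem_filter, mem_Ioc] at hq
      have := hq.2.two_le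
      rw [mem_Ioc]
      omega
    refine (sum_le_sum (g := fun q : ℕ => 8 * Real.exp 4 * ((q : ℝ) ^ 2)⁻¹) fun q hq => ?_).trans
      (sum_le_sum_of_subset_of_nonneg h7 fun q _ _ => by positivity)
    have h8 := (hPp q hq).two_le
    have h9 : (0 : ℝ) < q := by exact_mod_cast (hPp q hq).pos
    have h10 := div_le_div_of_nonneg_right (cq_le h8) h9.le
    refine h10.trans (le_of_eq ?_)
    field_simp
  refine h6.trans ?_
  rw [← mul_sum]
  by_cases hX : 1 ≤ X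
  · have h7 := sum_Ioc_inv_sq_le_sub (α := ℝ) one_ne_zero hX
    have h8 : (0 : ℝ) ≤ (X : ℝ)⁻¹ := by positivity
    have h9 : ∑ i ∈ Ioc 1 X, ((i : ℝ) ^ 2)⁻¹ ≤ 1 := by
      push_cast at h7
      linarith
    have h10 : 0 ≤ 8 * Real.exp 4 := by positivity
    nlinarith
  · have h7 : Ioc 1 X = ∅ := by
      rw [Ioc_eq_empty_iff]; omega
    rw [h7]
    simp
    positivity

end Pool.Agent.ShSq
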