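import Pool.Agent.Lib.ShSq.Main

/-!
# The theorem
-/

open Finset Pool.Agent.ACB

namespace Pool.Agent.ShSq

lemma EE_le_sqrt {m : ℕ} (hm : 1 ≤ m) : EE m ^ 2 ≤ m * Real.exp (8 * Real.exp 4) :=
  (single_le_sum (f := fun a => EE a ^ 2) (fun _ _ => sq_nonneg _)
    (mem_Ioc.2 ⟨hm, le_refl m⟩)).trans (sum_EE_sq m)

/-- each integer is `u + r` with `u` coprime to `m` and `r < m` in `φ (m)` ways -/
lemma shift_count {m : ℕ} {U G : Finset ℕ} (hU : ∀ u ∈ U, m.Coprime u)
    (hG : ∀ u ∈ U, ∀ r < m, u + r ∈ G) : m * U.card ≤ Nat.totient m * G.card := by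
  have h1 := card_le_mul_card_image_of_maps_to (s := U ×ˢ range m) (t := G)
    (f := fun x : ℕ × ℕ => x.1 + x.2) (fun x hx => by
      rw [mem_product, mem_range] at hx
      exact hG _ hx.1 _ hx.2) (Nat.totient m) (fun n _ => by
      rw [← Nat.filter_coprime_Ico_eq_totient m (n + 1 - m)]
      refine card_le_card_of_injOn (fun x => x.1) (fun x hx => ?_) ?_
      · rw [mem_coe, mem_filter, mem_product, mem_range] at hx
        obtain ⟨⟨h1, h2⟩, h3⟩ := hx
        show x.1 ∈ _
        rw [mem_coe, mem_filter, mem_Ico]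
        exact ⟨⟨by omega, by omega⟩, hU _ h1⟩
      · intro x hx y hy hxy
        rw [mem_coe, mem_filter] at hx hy
        have h1 := hx.2
        have h2 := hy.2
        have h3 : x.1 = y.1 := hxy
        exact Prod.ext h3 (by omega))
  rw [card_product, card_range] at h1
  linarith [mul_comm U.card m]

open Classical in
/-- the `n ≤ N` with a prime `p < n` and a `k ≤ 2 log n` such that `⌊(n - p) / m⌋ = k ^ 2` -/
noncomputable def Good (m N : ℕ) : Finset ℕ :=
  (Finset.Icc 1 N).filter fun n => ∃ p k : ℕ, p.Prime ∧ p < n ∧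
    (k : ℝ) ≤ 2 * Real.log n ∧ (n - p) / m = k ^ 2

open Classical in
lemma mem_Good {m N n : ℕ} : n ∈ Good m N ↔ (1 ≤ n ∧ n ≤ N) ∧ ∃ p k : ℕ, p.Prime ∧ p < n ∧
        (k : ℝ) ≤ 2 * Real.log n ∧ (n - p) / m = k ^ 2 := by
  unfold Good
  rw [mem_filter, mem_Icc]

theorem final : ∃ c : ℝ, 0 < c ∧ ∃ N₀ : ℕ, ∀ N ≥ N₀, ∀ m : ℕ, 1 ≤ m →
    c * N ≤ ((Good m N).card : ℝ) := by
  classical
  obtain ⟨bs, hbs⟩ := pow_unbounded_of_one_lt (Real.exp (66 * 8)) (show (1 : ℝ) < 4 by norm_num)
  have hbs := hbs.le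
  obtain ⟨N₁, h1⟩ := exists_large bs
  have hC4 : 0 < C4 bs := by
    unfold C4
    positivity
  have hC5 : 0 < C5 bs := by
    unfold C5
    positivity
  have ht : Filter.Tendsto (fun N : ℕ => (N : ℝ) ^ (1 / 8 : ℝ)) Filter.atTop Filter.atTop :=
    (tendsto_rpow_atTop (by norm_num)).comp tendsto_natCast_atTop_atTop
  set B : ℝ := 34 * Real.exp (4 * Real.exp 4) * C5 bs with hB
  have hB0 : 0 < B := by positivity
  obtain ⟨N₂, h2⟩ := Filter.eventually_atTop.1 (ht.eventually_ge_atTop B)
  have main : ∀ N ≥ max N₁ N₂, ∀ m : ℕ, 1 ≤ m → m ^ 2 ≤ N →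
      1 / (2 * C5 bs) * N ≤ ((Good m N).card : ℝ) := by
    intro N hN m hm hmN
    have hL := h1 N ((le_max_left _ _).trans hN)
    have hNB := h2 N ((le_max_right _ _).trans hN)
    have hm0 : m ≠ 0 := by omega
    have hmR : (1 : ℝ) ≤ m := by exact_mod_cast hm
    have hU := union_large hL hbs hm0 hmN
    obtain ⟨w, hw0, hN8, -, hl0, hlog, hl2⟩ := hL.facts
    have hww : (N : ℝ) ^ (1 / 8 : ℝ) = w := by
      rw [hN8, ← Real.rpow_natCast, ← Real.rpow_mul (by linarith)]
      norm_num
    rw [hww] at hNB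
    have hNpos : (0 : ℝ) < N := by rw [hN8]; positivity
    have hmw : (m : ℝ) ≤ w ^ 4 := by
      have h1 : ((m : ℝ)) ^ 2 ≤ (w ^ 4) ^ 2 := by
        have : ((m ^ 2 : ℕ) : ℝ) ≤ (N : ℝ) := by exact_mod_cast hmN
        rw [hN8] at this
        push_cast at this
        calc (m : ℝ) ^ 2 ≤ w ^ 8 := this
          _ = (w ^ 4) ^ 2 := by ring
      exact le_of_sq_le_sq h1 (by positivity)
    have hF0 := FF_pos m
    have hFw : FF m ≤ w ^ 2 * Real.exp (4 * Real.exp 4) := by
      have h3 : FF m ^ 2 ≤ (w ^ 2 * Real.exp (4 * Real.exp 4)) ^ 2 := by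
        refine (FF_sq_le' m).trans ((EE_le_sqrt hm).trans ?_)
        have e1 : (w ^ 2 * Real.exp (4 * Real.exp 4)) ^ 2 = w ^ 4 * Real.exp (8 * Real.exp 4) := by
          rw [mul_pow, ← Real.exp_nat_mul]
          push_cast
          ring_nf
        rw [e1]
        exact mul_le_mul_of_nonneg_right hmw (Real.exp_pos _).le
      exact le_of_sq_le_sq h3 (by positivity)
    set J := ⌈Real.log N⌉₊ with hJ
    have hJ1 : (J : ℝ) < Real.log N + 1 := Nat.ceil_lt_add_one (by linarith)
    set U := (Icc 1 J).biUnion (SS m N) with hUdef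
    set U' := U.filter fun u => m.Coprime u ∧ u + m ≤ N ∧ ⌊2 * w ^ 4⌋₊ < u with hU'
    set G := Good m N with hG
    set NC := ((Icc 1 m) ×ˢ (Icc 1 J)).image fun x => x.1 + m * x.2 ^ 2 with hNC
    have hsub : U ⊆ U' ∪ (NC ∪ (Ioc (N - m) N ∪ Icc 1 ⌊2 * w ^ 4⌋₊)) := by
      intro n hn
      have hnU := hn
      rw [hUdef, mem_biUnion] at hn
      obtain ⟨k, hk, hn⟩ := hn
      rw [SS, mem_filter, mem_Icc] at hn
      obtain ⟨⟨n1, n2⟩, n3, n4⟩ := hn
      rw [mem_union, mem_union, mem_union]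
      by_cases hle : n ≤ ⌊2 * w ^ 4⌋₊
      · exact Or.inr (Or.inr (Or.inr (mem_Icc.2 ⟨n1, hle⟩)))
      by_cases hnm : n + m ≤ N
      · by_cases hco : m.Coprime n
        · left
          rw [hU', mem_filter]
          exact ⟨hnU, hco, hnm, by omega⟩
        · right
          left
          rw [hNC, mem_image]
          refine ⟨(n - m * k ^ 2, k), ?_, by simp only; omega⟩
          rw [mem_product, mem_Icc]
          refine ⟨⟨n4.pos, ?_⟩, hk⟩
          have hnc : ¬ Nat.Coprime (n - m * k ^ 2) m := by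
            intro h3
            apply hco
            have h4 : Nat.Coprime m (n - m * k ^ 2) := h3.symm
            have h5 : n = n - m * k ^ 2 + m * k ^ 2 := by omega
            rw [h5]
            exact (Nat.coprime_add_mul_left_right m _ _).2 h4
          rw [Nat.Prime.coprime_iff_not_dvd n4, not_not] at hnc
          exact Nat.le_of_dvd (by omega) hnc
      · right
        right
        left
        rw [mem_Ioc]
        omega
    have hcard : (U.card : ℝ) ≤ U'.card + 17 * w ^ 5 := by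
      have h3 := (card_le_card hsub).trans (card_union_le _ _)
      have h4 := card_union_le NC (Ioc (N - m) N ∪ Icc 1 ⌊2 * w ^ 4⌋₊)
      have h5 := card_union_le (Ioc (N - m) N) (Icc 1 ⌊2 * w ^ 4⌋₊)
      rw [Nat.card_Icc, Nat.add_sub_cancel, Nat.card_Ioc] at h5
      have h6 : NC.card ≤ m * J := by
        refine card_image_le.trans ?_
        rw [card_product, Nat.card_Icc, Nat.card_Icc]
        simp
      have h7 : U.card ≤ U'.card + (m * J + (m + ⌊2 * w ^ 4⌋₊)) := by omega
      have h8 : (U.card : ℝ) ≤ U'.card + (m * J + (m + (⌊2 * w ^ 4⌋₊ : ℝ))) := by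
        exact_mod_cast h7
      have h9 : (⌊2 * w ^ 4⌋₊ : ℝ) ≤ 2 * w ^ 4 := Nat.floor_le (by positivity)
      have h10 : (J : ℝ) ≤ 8 * w := by linarith
      have h11 : (m : ℝ) * J ≤ w ^ 4 * (8 * w) :=
        mul_le_mul hmw h10 (Nat.cast_nonneg _) (by positivity)
      have h12 : 23 * w ^ 4 ≤ w * w ^ 4 := mul_le_mul_of_nonneg_right hw0 (by positivity)
      have h13 : 0 ≤ w ^ 4 := by positivity
      have h14 : w ^ 5 = w * w ^ 4 := by ring
      nlinarith
    have hshift : m * U'.card ≤ Nat.totient m * G.card := by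
      refine shift_count (fun u hu => (mem_filter.1 hu).2.1) (fun u hu r hr => ?_)
      rw [hU', mem_filter] at hu
      obtain ⟨huU, -, hu2, hu3⟩ := hu
      rw [hUdef, mem_biUnion] at huU
      obtain ⟨k, hk, hn⟩ := huU
      rw [SS, mem_filter, mem_Icc] at hn
      obtain ⟨⟨n1, n2⟩, n3, n4⟩ := hn
      rw [mem_Icc] at hk
      rw [hG, mem_Good]
      refine ⟨⟨by omega, by omega⟩, u - m * k ^ 2, k, n4, ?_, ?_, ?_⟩
      · have hmk : 0 < m * k ^ 2 := Nat.mul_pos (by omega) (pow_pos (by omega) 2)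
        omega
      · have h3 : (k : ℝ) ≤ Real.log N + 1 := by
          have h4 : (k : ℝ) ≤ J := by exact_mod_cast hk.2
          linarith
        have hn0 : (2 * w ^ 4 : ℝ) < u := by
          have := (Nat.floor_lt (by positivity)).1 hu3
          exact this
        have hur : (u : ℝ) ≤ ((u + r : ℕ) : ℝ) := by exact_mod_cast Nat.le_add_right u r
        have h4 : Real.log N + 1 ≤ 2 * Real.log ((u + r : ℕ) : ℝ) := by
          have h5 : Real.exp 1 * N ≤ ((u + r : ℕ) : ℝ) ^ 2 := by
            have h6 := Real.exp_one_lt_d9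
            have h7 : (2 * w ^ 4) ^ 2 ≤ ((u + r : ℕ) : ℝ) ^ 2 :=
              pow_le_pow_left₀ (by positivity) (hn0.le.trans hur) 2
            have h8 : (2 * w ^ 4) ^ 2 = 4 * N := by rw [hN8]; ring
            nlinarith
          have h6 := Real.log_le_log (by positivity) h5
          rw [Real.log_mul (Real.exp_pos 1).ne' hNpos.ne', Real.log_exp, Real.log_pow] at h6
          push_cast at h6 ⊢
          linarith
        linarith
      · have h3 : u + r - (u - m * k ^ 2) = m * k ^ 2 + r := by omega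
        rw [h3, Nat.mul_add_div (by omega), Nat.div_eq_of_lt hr, add_zero]
    have hFU : FF m * U'.card ≤ G.card := by
      have h3 : (m : ℝ) * U'.card ≤ Nat.totient m * G.card := by exact_mod_cast hshift
      have h4 := FF_eq hm
      have h5 : (m : ℝ) * (FF m * U'.card) ≤ m * G.card := by
        calc (m : ℝ) * (FF m * U'.card) = FF m * (m * U'.card) := by ring
          _ ≤ FF m * (Nat.totient m * G.card) := mul_le_mul_of_nonneg_left h3 hF0.le
          _ = m * G.card := by rw [← mul_assoc, h4]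
      exact le_of_mul_le_mul_left h5 (by linarith)
    have h6 : FF m * (17 * w ^ 5) ≤ 1 / (2 * C5 bs) * N := by
      calc FF m * (17 * w ^ 5) ≤ (w ^ 2 * Real.exp (4 * Real.exp 4)) * (17 * w ^ 5) :=
            mul_le_mul_of_nonneg_right hFw (by positivity)
        _ = 1 / (2 * C5 bs) * (B * w ^ 7) := by
            rw [hB]
            field_simp
            ring
        _ ≤ 1 / (2 * C5 bs) * (w * w ^ 7) := by
            refine mul_le_mul_of_nonneg_left ?_ (by positivity)
            exact mul_le_mul_of_nonneg_right hNB (by positivity)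
        _ = 1 / (2 * C5 bs) * N := by rw [hN8]; ring
    have h7 : FF m * (N / (C5 bs * FF m)) = 2 * (1 / (2 * C5 bs) * N) := by
      field_simp
    have h8 : FF m * (N / (C5 bs * FF m)) ≤ FF m * (U'.card + 17 * w ^ 5) :=
      mul_le_mul_of_nonneg_left (hU.trans hcard) hF0.le
    rw [h7, mul_add] at h8
    linarith
  refine ⟨1 / (2 * C5 bs), by positivity, max N₁ N₂, fun N hN m hm => ?_⟩
  by_cases hmN : m ^ 2 ≤ N
  · exact main N hN m hm hmN
  push Not at hmN
  have hL := h1 N ((le_max_left _ _).trans hN)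
  obtain ⟨w, hw0, hN8, -, hl0, hlog, hl2⟩ := hL.facts
  have hN1 : 1 ^ 2 ≤ N := by
    have : (1 : ℝ) ≤ N := by
      rw [hN8]
      exact one_le_pow₀ (by linarith)
    exact_mod_cast this
  refine (main N hN 1 le_rfl hN1).trans ?_
  have hsub : Good 1 N ⊆ Good m N := by
    intro n hn
    rw [mem_Good] at hn ⊢
    obtain ⟨⟨n1, n2⟩, p, k, hp, hpn, hk, he⟩ := hn
    refine ⟨⟨n1, n2⟩, p, 0, hp, hpn, ?_, ?_⟩
    · push_cast
      have : 0 ≤ Real.log (n : ℝ) := Real.log_natCast_nonneg n
      linarith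
    · rw [Nat.div_one] at he
      have hnR : Real.log (n : ℝ) ≤ Real.log N :=
        Real.log_le_log (by exact_mod_cast n1) (by exact_mod_cast n2)
      have hk2 : (k : ℝ) ≤ 16 * w := by linarith
      have hlt : ((n - p : ℕ) : ℝ) < m := by
        rw [he]
        push_cast
        have hmw : w ^ 4 < (m : ℝ) := by
          have h3 : (w ^ 4) ^ 2 < (m : ℝ) ^ 2 := by
            have h4 : (N : ℝ) < ((m ^ 2 : ℕ) : ℝ) := by exact_mod_cast hmN
            rw [hN8] at h4
            push_cast at h4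
            calc (w ^ 4) ^ 2 = w ^ 8 := by ring
              _ < _ := h4
          exact lt_of_pow_lt_pow_left₀ 2 (Nat.cast_nonneg m) h3
        have h4 : (k : ℝ) ^ 2 ≤ (16 * w) ^ 2 := pow_le_pow_left₀ (Nat.cast_nonneg k) hk2 2
        have h5 : (16 * w) ^ 2 ≤ w ^ 4 := by
          have e1 : w ^ 4 = w ^ 2 * w ^ 2 := by ring
          have e2 : (16 * w) ^ 2 = 256 * w ^ 2 := by ring
          rw [e1, e2]
          refine mul_le_mul_of_nonneg_right ?_ (sq_nonneg w)
          nlinarith
        linarith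
      have hlt' : n - p < m := by exact_mod_cast hlt
      rw [Nat.div_eq_of_lt hlt']
      norm_num
  exact_mod_cast card_le_card hsub

end Pool.Agent.ShSq
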