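import Pool.Agent.Lib.ShSq.Avg
import Pool.Agent.Lib.MP_acb0a8_nt.Moments

/-!
# Many `n ≤ N` are a prime plus `m k ^ 2` with `k` of the size of `log N`
-/

open Finset Pool.Agent.ACB

namespace Pool.Agent.ShSq

/-- the `n ≤ N` for which `n - m k ^ 2` is a prime -/
def SS (m N k : ℕ) : Finset ℕ := (Icc 1 N).filter fun n => m * k ^ 2 < n ∧ (n - m * k ^ 2).Prime

lemma SS_lower {m N k : ℕ} (hN : 8 ≤ N) (h : 2 * (m * k ^ 2) ≤ N) :
    (N : ℝ) / (8 * Real.log N) ≤ (SS m N k).card := by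
  set X := N - m * k ^ 2 with hX
  have hX4 : 4 ≤ X := by omega
  have h1 := pi_lower X hX4
  have h2 : Nat.primeCounting X ≤ (SS m N k).card := by
    unfold Nat.primeCounting Nat.primeCounting'
    rw [Nat.count_eq_card_filter_range]
    refine card_le_card_of_injOn (fun p => p + m * k ^ 2) (fun p hp => ?_) ?_
    · rw [mem_coe, mem_filter, mem_range] at hp
      have h3 := hp.2.pos
      change p + m * k ^ 2 ∈ (SS m N k : Set ℕ)
      rw [mem_coe, SS, mem_filter, mem_Icc]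
      refine ⟨⟨by omega, by omega⟩, by omega, ?_⟩
      rw [Nat.add_sub_cancel]
      exact hp.2
    · intro a _ b _ hab
      simpa using hab
  have hXR : (N : ℝ) / 2 ≤ X := by
    have : N ≤ 2 * X := by omega
    have h4 : (N : ℝ) ≤ 2 * X := by exact_mod_cast this
    linarith
  have hX4R : (4 : ℝ) ≤ X := by exact_mod_cast hX4
  have hXN : (X : ℝ) ≤ N := by exact_mod_cast Nat.sub_le _ _
  have hlX : 0 < Real.log X := Real.log_pos (by linarith)
  have hlN : Real.log X ≤ Real.log N := Real.log_le_log (by linarith) hXN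
  have h3 : (N : ℝ) / (8 * Real.log N) ≤ X / (4 * Real.log X) := by
    rw [div_le_div_iff₀ (by linarith) (by linarith)]
    have h5 : (0 : ℝ) ≤ N := Nat.cast_nonneg N
    nlinarith [mul_le_mul_of_nonneg_left hlN h5, mul_nonneg (sub_nonneg.2 hXR)
      (hlX.le.trans hlN)]
  refine (h3.trans h1).trans ?_
  exact_mod_cast h2

lemma SS_pair {m N i j : ℕ} (hij : i < j) :
    ((SS m N i ∩ SS m N j).card : ℝ) ≤
      (((Finset.Icc 1 N).filter fun t => t.Prime ∧ (t + m * ((j - i) * (j + i))).Prime).card : ℝ) := by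
  have h1 : (SS m N i ∩ SS m N j).card ≤
      ((Finset.Icc 1 N).filter fun t => t.Prime ∧ (t + m * ((j - i) * (j + i))).Prime).card := by
    have e1 : (j - i) * (j + i) + i ^ 2 = j ^ 2 := by
      obtain ⟨d, rfl⟩ := Nat.exists_eq_add_of_lt hij
      have : i + d + 1 - i = d + 1 := by omega
      rw [this]
      ring
    have e2 : m * ((j - i) * (j + i)) + m * i ^ 2 = m * j ^ 2 := by rw [← mul_add, e1]
    refine card_le_card_of_injOn (fun n => n - m * j ^ 2) (fun n hn => ?_) ?_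
    · rw [mem_coe, mem_inter, SS, SS, mem_filter, mem_filter, mem_Icc] at hn
      obtain ⟨⟨⟨h2, h3⟩, h4, h5⟩, -, h6, h7⟩ := hn
      show n - m * j ^ 2 ∈ _
      rw [mem_coe, mem_filter, mem_Icc]
      refine ⟨⟨by omega, by omega⟩, h7, ?_⟩
      have : n - m * j ^ 2 + m * ((j - i) * (j + i)) = n - m * i ^ 2 := by omega
      show (n - m * j ^ 2 + m * ((j - i) * (j + i))).Prime
      rw [this]
      exact h5
    · intro a ha b hb hab
      rw [mem_coe, mem_inter, SS, SS, mem_filter, mem_filter, mem_Icc] at ha hb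
      have h2 := ha.2.2.1
      have h3 := hb.2.2.1
      have hab' : a - m * j ^ 2 = b - m * j ^ 2 := hab
      omega
  exact_mod_cast h1

lemma FF_pair {m i j : ℕ} (hm : m ≠ 0) (hi : 1 ≤ i) (hij : i < j) :
    FF (m * ((j - i) * (j + i))) ≤ FF m / 2 * (EE (j - i) ^ 2 + EE (j + i) ^ 2) := by
  have h1 : j - i ≠ 0 := by omega
  have h2 : j + i ≠ 0 := by omega
  have h3 := FF_mul hm (mul_ne_zero h1 h2)
  have h4 := FF_mul h1 h2
  have h5 := FF_pos m
  have h6 := FF_sq_le' (j - i)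
  have h7 := FF_sq_le' (j + i)
  have h8 : FF (j - i) * FF (j + i) ≤ (EE (j - i) ^ 2 + EE (j + i) ^ 2) / 2 := by
    nlinarith [sq_nonneg (FF (j - i) - FF (j + i))]
  calc FF (m * ((j - i) * (j + i))) ≤ FF m * FF ((j - i) * (j + i)) := h3
    _ ≤ FF m * ((EE (j - i) ^ 2 + EE (j + i) ^ 2) / 2) :=
        mul_le_mul_of_nonneg_left (h4.trans h8) h5.le
    _ = _ := by ring

/-- the constant of the sieve -/
noncomputable def C4 (bs : ℕ) : ℝ := 72 * (24 * (bs + 1)) ^ 2 + 1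

/-- the large numbers `N` -/
structure Large (bs N : ℕ) : Prop where
  w : (23 : ℝ) ≤ (N : ℝ) ^ (1 / 8 : ℝ)
  z : (2 : ℝ) ≤ (N : ℝ) ^ (1 / (24 * (bs + 1)) : ℝ)

lemma exists_large (bs : ℕ) : ∃ N₀ : ℕ, ∀ N ≥ N₀, Large bs N := by
  have h1 : Filter.Tendsto (fun N : ℕ => (N : ℝ) ^ (1 / 8 : ℝ)) Filter.atTop Filter.atTop :=
    (tendsto_rpow_atTop (by norm_num)).comp tendsto_natCast_atTop_atTop
  have h2 : Filter.Tendsto (fun N : ℕ => (N : ℝ) ^ (1 / (24 * (bs + 1)) : ℝ)) Filter.atTop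
      Filter.atTop := (tendsto_rpow_atTop (by positivity)).comp tendsto_natCast_atTop_atTop
  have h3 := (h1.eventually_ge_atTop 23).and (h2.eventually_ge_atTop 2)
  obtain ⟨N₀, h4⟩ := Filter.eventually_atTop.1 h3
  exact ⟨N₀, fun N hN => ⟨(h4 N hN).1, (h4 N hN).2⟩⟩

section large

variable {bs N : ℕ}

lemma Large.facts (h : Large bs N) : ∃ w : ℝ, 23 ≤ w ∧ (N : ℝ) = w ^ 8 ∧
    Real.sqrt N = w ^ 4 ∧ 0 < Real.log N ∧ 1 ≤ Real.log N ∧ Real.log N ≤ 8 * (w - 1) := by
  set w := (N : ℝ) ^ (1 / 8 : ℝ) with hw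
  have hw0 := h.w
  rw [← hw] at hw0
  have hN : (N : ℝ) = w ^ 8 := by
    rw [hw, ← Real.rpow_natCast, ← Real.rpow_mul (Nat.cast_nonneg N)]
    norm_num
  have hlog : Real.log N = 8 * Real.log w := by
    rw [hN, Real.log_pow]
    norm_num
  have h1 : Real.log w ≤ w - 1 := Real.log_le_sub_one_of_pos (by linarith)
  have h2 : 1 ≤ Real.log w := by
    rw [Real.le_log_iff_exp_le (by linarith)]
    have := Real.exp_one_lt_d9
    linarith
  refine ⟨w, hw0, hN, ?_, by linarith, by linarith, by linarith⟩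
  rw [hN, show w ^ 8 = (w ^ 4) ^ 2 by ring, Real.sqrt_sq (by positivity)]

lemma Large.pair (h : Large bs N) (hbs : Real.exp (66 * 8) ≤ 4 ^ bs) {d : ℕ} (hd : d ≠ 0) :
    (((Finset.Icc 1 N).filter fun t => t.Prime ∧ (t + d).Prime).card : ℝ) ≤
      C4 bs * (N / Real.log N ^ 2) * FF d := by
  classical
  obtain ⟨w, hw, hN, hsq, hl0, hl1, hl2⟩ := h.facts
  have hNpos : (0 : ℝ) < N := by rw [hN]; positivity
  set D : ℝ := 24 * (bs + 1) with hD
  have hD0 : 24 ≤ D := by
    rw [hD]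
    have : (0 : ℝ) ≤ bs := Nat.cast_nonneg bs
    linarith
  set y : ℝ := (N : ℝ) ^ (1 / D) with hy
  have hy2 : 2 ≤ y := h.z
  set z := ⌊y⌋₊ with hz
  have hz2 : 2 ≤ z := Nat.le_floor (by exact_mod_cast hy2)
  have hzy : (z : ℝ) ≤ y := Nat.floor_le (by linarith)
  have hyz : y < z + 1 := Nat.lt_floor_add_one y
  have hly : Real.log y = Real.log N / D := by
    rw [hy, Real.log_rpow hNpos]
    ring
  have hz0 : (0 : ℝ) < z := by
    have : (2 : ℝ) ≤ z := by exact_mod_cast hz2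
    linarith
  have h1 := pair_sieve hbs hd hz2 N
  have h2 : Real.log N / D ≤ Real.log (z + 1) := by
    rw [← hly]
    exact Real.log_le_log (by linarith) hyz.le
  have h3 : 0 < Real.log N / D := by positivity
  have h4 : 9 * FF d / Real.log (z + 1) ^ 2 ≤ 9 * FF d * D ^ 2 / Real.log N ^ 2 := by
    have h5 : (Real.log N / D) ^ 2 ≤ Real.log (z + 1) ^ 2 := pow_le_pow_left₀ h3.le h2 2
    have h6 : 0 ≤ 9 * FF d := by have := FF_pos d; linarith
    calc 9 * FF d / Real.log (z + 1) ^ 2 ≤ 9 * FF d / (Real.log N / D) ^ 2 :=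
          div_le_div_of_nonneg_left h6 (by positivity) h5
      _ = 9 * FF d * D ^ 2 / Real.log N ^ 2 := by
          rw [div_pow, div_div_eq_mul_div]
  have h5 : Real.log z ≤ Real.log N / D := by
    rw [← hly]
    exact Real.log_le_log hz0 hzy
  have h6 : Real.exp (12 * (bs + 1) * Real.log z + 1) ≤ 3 * Real.sqrt N := by
    have h7 : 12 * ((bs : ℝ) + 1) * Real.log z ≤ Real.log N / 2 := by
      have h8 : (0 : ℝ) ≤ 12 * ((bs : ℝ) + 1) := by positivity
      refine (mul_le_mul_of_nonneg_left h5 h8).trans (le_of_eq ?_)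
      rw [hD]
      have : (0 : ℝ) < (bs : ℝ) + 1 := by positivity
      field_simp
      norm_num
    calc Real.exp (12 * (bs + 1) * Real.log z + 1) ≤ Real.exp (Real.log N / 2 + 1) :=
          Real.exp_le_exp.2 (by linarith)
      _ = Real.exp 1 * Real.sqrt N := by
          rw [Real.exp_add, mul_comm, Real.sqrt_eq_rpow, Real.rpow_def_of_pos hNpos]
          congr 2
          ring
      _ ≤ 3 * Real.sqrt N := mul_le_mul_of_nonneg_right (by
          have := Real.exp_one_lt_d9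
          linarith) (Real.sqrt_nonneg _)
  have h7 : (z : ℝ) ≤ Real.sqrt N := by
    refine hzy.trans ?_
    rw [hy, Real.sqrt_eq_rpow]
    refine Real.rpow_le_rpow_of_exponent_le ?_ ?_
    · rw [hN]
      exact one_le_pow₀ (by linarith)
    · exact one_div_le_one_div_of_le (by norm_num) (by linarith)
  have h8 : 4 * Real.sqrt N ≤ N / Real.log N ^ 2 := by
    rw [hsq, le_div_iff₀ (by positivity)]
    have h9 : Real.log N ^ 2 ≤ (8 * w) ^ 2 := pow_le_pow_left₀ hl0.le (by linarith) 2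
    have h10 : 4 * w ^ 4 * (8 * w) ^ 2 ≤ N := by
      rw [hN]
      have h11 : 4 * w ^ 4 * (8 * w) ^ 2 = 256 * w ^ 6 := by ring
      rw [h11, show w ^ 8 = w ^ 2 * w ^ 6 by ring]
      refine mul_le_mul_of_nonneg_right ?_ (by positivity)
      nlinarith
    refine le_trans (mul_le_mul_of_nonneg_left h9 (by positivity)) h10
  have h9 : 4 * ((N : ℝ) + 1) * (9 * FF d / Real.log (z + 1) ^ 2) ≤
      72 * D ^ 2 * (N / Real.log N ^ 2) * FF d := by
    have h10 : (1 : ℝ) ≤ N := by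
      rw [hN]
      exact one_le_pow₀ (by linarith)
    have h11 : 0 ≤ 9 * FF d * D ^ 2 / Real.log N ^ 2 := by
      have := FF_pos d
      positivity
    calc 4 * ((N : ℝ) + 1) * (9 * FF d / Real.log (z + 1) ^ 2)
        ≤ 4 * ((N : ℝ) + 1) * (9 * FF d * D ^ 2 / Real.log N ^ 2) :=
          mul_le_mul_of_nonneg_left h4 (by linarith)
      _ ≤ 4 * (2 * N) * (9 * FF d * D ^ 2 / Real.log N ^ 2) :=
          mul_le_mul_of_nonneg_right (by linarith) h11
      _ = 72 * D ^ 2 * (N / Real.log N ^ 2) * FF d := by ring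
  have h10 := one_le_FF d
  have h11 : 0 ≤ (N : ℝ) / Real.log N ^ 2 := by positivity
  unfold C4
  rw [← hD]
  nlinarith [mul_le_mul_of_nonneg_left h10 h11]

lemma Large.SS_pair (h : Large bs N) (hbs : Real.exp (66 * 8) ≤ 4 ^ bs) {m i j : ℕ} (hm : m ≠ 0)
    (hi : 1 ≤ i) (hj : 1 ≤ j) (hij : i ≠ j) :
    ((SS m N i ∩ SS m N j).card : ℝ) ≤ C4 bs * (N / Real.log N ^ 2) * (FF m / 2) *
      (EE ((i - j) + (j - i)) ^ 2 + EE (i + j) ^ 2) := by
  have key : ∀ i j : ℕ, 1 ≤ i → i < j → ((SS m N i ∩ SS m N j).card : ℝ) ≤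
      C4 bs * (N / Real.log N ^ 2) * (FF m / 2) * (EE (j - i) ^ 2 + EE (i + j) ^ 2) := by
    intro i j hi hij
    have h1 : m * ((j - i) * (j + i)) ≠ 0 :=
      mul_ne_zero hm (mul_ne_zero (by omega) (by omega))
    refine (Pool.Agent.ShSq.SS_pair hij).trans ((h.pair hbs h1).trans ?_)
    have h2 := FF_pair hm hi hij
    have h3 : 0 ≤ C4 bs * (N / Real.log N ^ 2) := by
      unfold C4
      positivity
    rw [add_comm i j]
    calc C4 bs * (N / Real.log N ^ 2) * FF (m * ((j - i) * (j + i)))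
        ≤ C4 bs * (N / Real.log N ^ 2) * (FF m / 2 * (EE (j - i) ^ 2 + EE (j + i) ^ 2)) :=
          mul_le_mul_of_nonneg_left h2 h3
      _ = _ := by ring
  rcases lt_or_gt_of_ne hij with h1 | h1
  · have h2 : i - j + (j - i) = j - i := by omega
    rw [h2]
    exact key i j hi h1
  · have h2 : i - j + (j - i) = i - j := by omega
    rw [h2, inter_comm, add_comm i j]
    exact key j i hj h1

end large

lemma sum_inj_le {s t : Finset ℕ} {g : ℕ → ℕ} (hg : Set.InjOn g s) (hst : ∀ x ∈ s, g x ∈ t)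
    {f : ℕ → ℝ} (hf : ∀ x, 0 ≤ f x) : ∑ x ∈ s, f (g x) ≤ ∑ y ∈ t, f y := by
  rw [← sum_image (f := f) hg]
  refine sum_le_sum_of_subset_of_nonneg ?_ fun y _ _ => hf y
  intro y hy
  rw [mem_image] at hy
  obtain ⟨x, hx, rfl⟩ := hy
  exact hst x hx

lemma sum_shift {J i : ℕ} (hi : i ∈ Icc 1 J) :
    ∑ j ∈ (Icc 1 J).erase i, (EE ((i - j) + (j - i)) ^ 2 + EE (i + j) ^ 2) ≤
      4 * J * Real.exp (8 * Real.exp 4) := by
  rw [mem_Icc] at hi
  have hf : ∀ a : ℕ, 0 ≤ EE a ^ 2 := fun a => sq_nonneg _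
  have h0 := sum_EE_sq J
  have h0' := sum_EE_sq (2 * J)
  rw [sum_add_distrib]
  have h1 : ∑ j ∈ (Icc 1 J).erase i, EE (i + j) ^ 2 ≤ ∑ a ∈ Ioc 0 (2 * J), EE a ^ 2 := by
    refine sum_inj_le (g := fun j => i + j) (f := fun a => EE a ^ 2) ?_ ?_ hf
    · intro a _ b _ hab
      have : i + a = i + b := hab
      omega
    · intro j hj
      rw [mem_erase, mem_Icc] at hj
      rw [mem_Ioc]
      omega
  have h2 : ∑ j ∈ (Icc 1 J).erase i, EE ((i - j) + (j - i)) ^ 2 ≤
      ∑ a ∈ Ioc 0 J, EE a ^ 2 + ∑ a ∈ Ioc 0 J, EE a ^ 2 := by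
    rw [← sum_filter_add_sum_filter_not _ (fun j => j < i)]
    refine add_le_add ?_ ?_
    · refine sum_inj_le (g := fun j => (i - j) + (j - i)) (f := fun a => EE a ^ 2) ?_ ?_ hf
      · intro a ha b hb hab
        rw [mem_coe, mem_filter] at ha hb
        have : (i - a) + (a - i) = (i - b) + (b - i) := hab
        omega
      · intro j hj
        rw [mem_filter, mem_erase, mem_Icc] at hj
        rw [mem_Ioc]
        omega
    · refine sum_inj_le (g := fun j => (i - j) + (j - i)) (f := fun a => EE a ^ 2) ?_ ?_ hf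
      · intro a ha b hb hab
        rw [mem_coe, mem_filter] at ha hb
        have : (i - a) + (a - i) = (i - b) + (b - i) := hab
        omega
      · intro j hj
        rw [mem_filter, mem_erase, mem_Icc] at hj
        rw [mem_Ioc]
        omega
  push_cast at h0'
  linarith

/-- the constant of the theorem -/
noncomputable def C5 (bs : ℕ) : ℝ := 64 * (1 / 8 + 4 * C4 bs * Real.exp (8 * Real.exp 4))

/-- **the union of the sets `SS m N k`, `1 ≤ k ≤ log N + 1`** -/
theorem union_large {bs N : ℕ} (h : Large bs N) (hbs : Real.exp (66 * 8) ≤ 4 ^ bs) {m : ℕ}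
    (hm : m ≠ 0) (hmN : m ^ 2 ≤ N) :
    (N : ℝ) / (C5 bs * FF m) ≤ (((Icc 1 ⌈Real.log N⌉₊).biUnion (SS m N)).card : ℝ) := by
  classical
  obtain ⟨w, hw, hN, hsq, hl0, hl1, hl2⟩ := h.facts
  have hNpos : (0 : ℝ) < N := by rw [hN]; positivity
  set L := Real.log N with hL
  set J := ⌈L⌉₊ with hJ
  have hJL : L ≤ J := Nat.le_ceil L
  have hJL' : (J : ℝ) < L + 1 := Nat.ceil_lt_add_one hl0.le
  have hJ2 : (J : ℝ) ≤ 2 * L := by linarith
  have hJpos : (0 : ℝ) < J := by linarith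
  have hN8 : 8 ≤ N := by
    have : (8 : ℝ) ≤ N := by
      rw [hN]
      calc (8 : ℝ) ≤ 23 ^ 8 := by norm_num
        _ ≤ w ^ 8 := pow_le_pow_left₀ (by norm_num) hw 8
    exact_mod_cast this
  have hmR : (m : ℝ) ≤ w ^ 4 := by
    have h1 : ((m : ℝ)) ^ 2 ≤ (w ^ 4) ^ 2 := by
      have : ((m ^ 2 : ℕ) : ℝ) ≤ (N : ℝ) := by exact_mod_cast hmN
      rw [hN] at this
      push_cast at this
      calc (m : ℝ) ^ 2 ≤ w ^ 8 := this
        _ = (w ^ 4) ^ 2 := by ring
    exact le_of_sq_le_sq h1 (by positivity)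
  have hsmall : ∀ k ∈ Icc 1 J, 2 * (m * k ^ 2) ≤ N := by
    intro k hk
    rw [mem_Icc] at hk
    have hkR : (k : ℝ) ≤ 8 * w := by
      have : (k : ℝ) ≤ J := by exact_mod_cast hk.2
      linarith
    have h1 : 2 * ((m : ℝ) * k ^ 2) ≤ N := by
      have h2 : (k : ℝ) ^ 2 ≤ (8 * w) ^ 2 := pow_le_pow_left₀ (Nat.cast_nonneg k) hkR 2
      have h3 : (m : ℝ) * k ^ 2 ≤ w ^ 4 * (8 * w) ^ 2 :=
        mul_le_mul hmR h2 (by positivity) (by positivity)
      have h4 : 2 * (w ^ 4 * (8 * w) ^ 2) ≤ w ^ 8 := by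
        have h11 : 2 * (w ^ 4 * (8 * w) ^ 2) = 128 * w ^ 6 := by ring
        rw [h11, show w ^ 8 = w ^ 2 * w ^ 6 by ring]
        refine mul_le_mul_of_nonneg_right ?_ (by positivity)
        nlinarith
      rw [hN]
      linarith
    exact_mod_cast h1
  set K := C4 bs * (N / L ^ 2) * (FF m / 2) with hK
  have hC4 : 0 < C4 bs := by
    unfold C4
    positivity
  have hK0 : 0 ≤ K := by
    have := FF_pos m
    positivity
  set a := (N : ℝ) / (8 * L) with ha
  have ha0 : 0 < a := by positivity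
  set T := ∑ k ∈ Icc 1 J, ((SS m N k).card : ℝ) with hT
  have hTlow : (J : ℝ) * a ≤ T := by
    calc (J : ℝ) * a = ∑ k ∈ Icc 1 J, a := by rw [sum_const, Nat.card_Icc]; simp
      _ ≤ T := sum_le_sum fun k hk => SS_lower hN8 (hsmall k hk)
  have hcs := cs (Icc 1 J) (SS m N)
  set C := Real.exp (8 * Real.exp 4) with hC
  set b := 4 * K * C with hb
  have hb0 : 0 ≤ b := by positivity
  have h2 : ∑ i ∈ Icc 1 J, ∑ j ∈ Icc 1 J, ((SS m N i ∩ SS m N j).card : ℝ) ≤
      T + (J : ℝ) ^ 2 * b := by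
    have h3 : ∀ i ∈ Icc 1 J, ∑ j ∈ Icc 1 J, ((SS m N i ∩ SS m N j).card : ℝ) ≤
        ((SS m N i).card : ℝ) + J * b := by
      intro i hi
      rw [← add_sum_erase _ _ hi, inter_self]
      refine add_le_add (le_refl _) ?_
      have h4 : ∑ j ∈ (Icc 1 J).erase i, ((SS m N i ∩ SS m N j).card : ℝ) ≤
          ∑ j ∈ (Icc 1 J).erase i, K * (EE ((i - j) + (j - i)) ^ 2 + EE (i + j) ^ 2) := by
        refine sum_le_sum fun j hj => ?_
        rw [mem_erase] at hj
        exact h.SS_pair hbs hm (mem_Icc.1 hi).1 (mem_Icc.1 hj.2).1 (Ne.symm hj.1)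
      rw [← mul_sum] at h4
      refine h4.trans ((mul_le_mul_of_nonneg_left (sum_shift hi) hK0).trans (le_of_eq ?_))
      rw [hb, hC]
      ring
    refine (sum_le_sum h3).trans (le_of_eq ?_)
    rw [sum_add_distrib, sum_const, Nat.card_Icc]
    simp only [Nat.add_sub_cancel, nsmul_eq_mul]
    ring
  set U := ((((Icc 1 J).biUnion (SS m N)).card : ℕ) : ℝ) with hU
  have h3 : T ^ 2 ≤ U * (T + (J : ℝ) ^ 2 * b) := by
    refine hcs.trans (mul_le_mul_of_nonneg_left h2 (Nat.cast_nonneg _))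
  have h4 := cs_final hJpos ha0 hb0 hTlow h3
  refine le_trans ?_ h4
  have hE1 := one_le_FF m
  have h5 : a + J * b ≤ N / L * FF m * (1 / 8 + 4 * C4 bs * C) := by
    have h6 : a ≤ N / L * FF m * (1 / 8) := by
      have h7 : a = N / L * (1 / 8) := by rw [ha]; field_simp
      rw [h7]
      have h8 : 0 ≤ (N : ℝ) / L := by positivity
      nlinarith [mul_le_mul_of_nonneg_left hE1 h8]
    have h7 : J * b ≤ N / L * FF m * (4 * C4 bs * C) := by
      calc (J : ℝ) * b ≤ (2 * L) * b := mul_le_mul_of_nonneg_right hJ2 hb0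
        _ = N / L * FF m * (4 * C4 bs * C) := by
            rw [hb, hK]
            field_simp
    linarith
  have h6 : (N : ℝ) ^ 2 / (64 * L) ≤ J * a ^ 2 := by
    calc (N : ℝ) ^ 2 / (64 * L) = L * a ^ 2 := by rw [ha]; field_simp; ring
      _ ≤ J * a ^ 2 := mul_le_mul_of_nonneg_right hJL (by positivity)
  have h7 : 0 < a + J * b := by
    have := mul_nonneg hJpos.le hb0
    linarith
  have h8 : 0 < 1 / 8 + 4 * C4 bs * C := by positivity
  have h9 : 0 < FF m := FF_pos m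
  calc (N : ℝ) / (C5 bs * FF m) =
        ((N : ℝ) ^ 2 / (64 * L)) / (N / L * FF m * (1 / 8 + 4 * C4 bs * C)) := by
        unfold C5
        rw [← hC]
        field_simp
    _ ≤ ((N : ℝ) ^ 2 / (64 * L)) / (a + J * b) :=
        div_le_div_of_nonneg_left (by positivity) h7 h5
    _ ≤ J * a ^ 2 / (a + J * b) := div_le_div_of_nonneg_right h6 h7.le

end Pool.Agent.ShSq
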