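import Pool.Agent.Lib.MP_acb0a8_nt.Sieve2

/-!
# An upper bound sieve with one or two residue classes for each prime

The proof is that of `Pool.Agent.ACB.sieve2_aux` (helper78), with `κ q ≤ 2` classes modulo `q`.
-/

open Finset Pool.Agent.GapSieve Pool.Agent.PosProp Pool.Agent.ACB

namespace Pool.Agent.ShSq

lemma sieveK_aux {bs : ℕ} (hbs : Real.exp (66 * 8) ≤ 4 ^ bs) (z : ℝ) (hz : 2 ≤ z) (Q : Finset ℕ)
    (hit : ℕ → ℕ → Prop)
    (hQ : ∀ q ∈ Q, q.Prime ∧ 5 ≤ q ∧ (q : ℝ) ≤ z)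
    (hper : ∀ q ∈ Q, ∀ t, hit q (t + q) ↔ hit q t)
    (κ : ℕ → ℕ) (hκ : ∀ q, κ q ≤ 2)
    (hcnt : ∀ q ∈ Q, hitCount (hit1 hit) q 0 = κ q) (X : ℕ) (G : Finset ℕ) (hG : G ⊆ range X)
    (hGQ : ∀ t ∈ G, ∀ q ∈ Q, ¬ hit q t) :
    (G.card : ℝ) ≤ 4 * X * ∏ q ∈ Q, (1 - κ q / (q : ℝ)) +
      Real.exp (12 * (bs + 1) * Real.log z + 1) := by
  classical
  have hlz : 0 < Real.log z := Real.log_pos (by linarith)
  have hS : HitSys (N := 1) Q κ (hit1 hit) := by
    refine ⟨fun q hq => (hQ q hq).1.pos, ?_, fun q hq i t => hper q hq t, ?_, ?_, ?_⟩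
    · intro q hq q' hq' hne
      exact (Nat.coprime_primes (hQ q hq).1 (hQ q' hq').1).2 hne
    · intro q hq i
      have : i = 0 := Subsingleton.elim _ _
      rw [this]
      exact hcnt q hq
    · intro q _ i j t _ _
      exact Subsingleton.elim _ _
    · intro q hq
      have := (hQ q hq).2.1
      have := hκ q
      omega
  obtain ⟨n, hn⟩ := pow_unbounded_of_one_lt (Real.log z) (one_lt_two (α := ℝ))
  set L := Real.log z with hL
  set I : ℕ → Finset ℕ := fun j => Q.filter fun q => (1 / 2 : ℝ) ^ (j + 1) * L < Real.log q ∧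
    Real.log q ≤ (1 / 2 : ℝ) ^ j * L with hI
  have hIQ : ∀ j, I j ⊆ Q := fun j => filter_subset _ _
  have hanti : ∀ i j : ℕ, i ≤ j → (1 / 2 : ℝ) ^ j * L ≤ (1 / 2 : ℝ) ^ i * L := fun i j hij =>
    mul_le_mul_of_nonneg_right (pow_le_pow_of_le_one (by norm_num) (by norm_num) hij) hlz.le
  have hdis' : ∀ i j : ℕ, i < j → Disjoint (I i) (I j) := by
    intro i j hij
    rw [disjoint_left]
    intro q h1 h2
    rw [hI, mem_filter] at h1 h2
    have := hanti (i + 1) j hij
    linarith [h1.2.1, h2.2.2]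
  have hdis : ∀ i < n, ∀ j < n, i ≠ j → Disjoint (I i) (I j) := by
    intro i _ j _ hij
    rcases Nat.lt_or_gt_of_ne hij with h | h
    · exact hdis' i j h
    · exact (hdis' j i h).symm
  have hcov : (range n).biUnion I = Q := by
    apply Subset.antisymm
    · rw [biUnion_subset]; exact fun j _ => hIQ j
    · intro q hq
      have hq5 : (5 : ℝ) ≤ q := by exact_mod_cast (hQ q hq).2.1
      have hlq1 : 1 < Real.log q := by
        rw [Real.lt_log_iff_exp_lt (by linarith)]
        linarith [Real.exp_one_lt_d9]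
      have hend : (1 / 2 : ℝ) ^ n * L < Real.log q := by
        have h2 : (1 / 2 : ℝ) ^ n * L ≤ 1 := by
          rw [one_div, inv_pow, inv_mul_le_iff₀ (by positivity), mul_one]
          exact hn.le
        linarith
      have hex : ∃ m, (1 / 2 : ℝ) ^ m * L < Real.log q := ⟨n, hend⟩
      have hm0 : Nat.find hex ≠ 0 := by
        intro h0
        have := Nat.find_spec hex
        rw [h0, pow_zero, one_mul] at this
        have h3 : Real.log q ≤ L := Real.log_le_log (by linarith) (hQ q hq).2.2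
        linarith
      obtain ⟨j, hj⟩ := Nat.exists_eq_succ_of_ne_zero hm0
      have hjn : j < n := by
        have := Nat.find_le (hn := hend) (h := hex)
        omega
      rw [mem_biUnion]
      refine ⟨j, mem_range.2 hjn, ?_⟩
      rw [hI, mem_filter]
      refine ⟨hq, ?_, ?_⟩
      · have := Nat.find_spec hex
        rw [hj] at this
        exact this
      · have := Nat.find_min hex (m := j) (by omega)
        push Not at this
        exact this
  set p : ℕ → ℝ := pp 1 κ with hp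
  have hpq : ∀ q, p q = κ q / (q : ℝ) := by
    intro q
    rw [hp]; unfold pp
    simp
  have hpq2 : ∀ q, p q ≤ 2 / (q : ℝ) := by
    intro q
    rw [hpq]
    exact div_le_div_of_nonneg_right (by exact_mod_cast hκ q) (Nat.cast_nonneg q)
  have hp0 : ∀ q ∈ Q, 0 ≤ p q := fun q _ => by rw [hpq]; positivity
  have hphalf : ∀ q ∈ Q, p q ≤ 1 / 2 := by
    intro q hq
    have hq5 : (5 : ℝ) ≤ q := by exact_mod_cast (hQ q hq).2.1
    refine (hpq2 q).trans ?_
    rw [div_le_div_iff₀ (by linarith) (by norm_num)]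
    linarith
  have hsum : ∀ j < n, ∑ q ∈ I j, p q ≤ 2 * 8 := by
    intro j _
    set w := Real.exp ((1 / 2 : ℝ) ^ (j + 1) * L) with hw
    have hw1 : 1 ≤ w := Real.one_le_exp (by positivity)
    have hw2 : w ^ 2 = Real.exp ((1 / 2 : ℝ) ^ j * L) := by
      rw [hw, ← Real.exp_nat_mul]
      congr 1
      rw [pow_succ]; push_cast; ring
    have h1 := Pool.Agent.Lib.MP_0bb3d8_nt.sum_pr_sq_le hw1
    calc ∑ q ∈ I j, p q ≤ 2 * ∑ q ∈ I j, 1 / (q : ℝ) := by
          rw [mul_sum]
          refine sum_le_sum fun q _ => (hpq2 q).trans (le_of_eq ?_)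
          ring
      _ ≤ 2 * ∑ q ∈ Pool.Agent.Lib.MP_0bb3d8_nt.pr w (w ^ 2), 1 / (q : ℝ) := by
          refine mul_le_mul_of_nonneg_left ?_ (by norm_num)
          apply sum_le_sum_of_subset_of_nonneg
          · intro q hq
            rw [hI, mem_filter] at hq
            have hq5 : (5 : ℝ) ≤ q := by exact_mod_cast (hQ q hq.1).2.1
            rw [Pool.Agent.Lib.MP_0bb3d8_nt.mem_pr (by linarith)]
            refine ⟨?_, ?_, (hQ q hq.1).1⟩
            · rw [hw, ← Real.lt_log_iff_exp_lt (by linarith)]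
              exact hq.2.1
            · rw [hw2, ← Real.log_le_iff_le_exp (by linarith)]
              exact hq.2.2
          · intro q _ _; positivity
      _ ≤ 2 * 8 := mul_le_mul_of_nonneg_left h1 (by norm_num)
  have hmom := bet_moment (p := p) (I := I) (n := n) (bs := bs) (C2 := 8) hdis
    (fun j _ q hq => hp0 q (hIQ j hq)) (fun j _ q hq => hphalf q (hIQ j hq)) hsum
    hbs (r := 1) le_rfl (by norm_num)
  rw [hcov] at hmom
  simp only [pow_one] at hmom
  -- squares
  have hsq : ∑ q ∈ Q, ((q : ℝ) ^ 2)⁻¹ ≤ 1 := by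
    have h1 : Q ⊆ Finset.Ioc 4 (⌊z⌋₊) := by
      intro q hq
      rw [mem_Ioc]
      refine ⟨by have := (hQ q hq).2.1; omega, Nat.le_floor (hQ q hq).2.2⟩
    calc ∑ q ∈ Q, ((q : ℝ) ^ 2)⁻¹ ≤ ∑ q ∈ Finset.Ioc 4 (⌊z⌋₊), ((q : ℝ) ^ 2)⁻¹ :=
          sum_le_sum_of_subset_of_nonneg h1 fun q _ _ => by positivity
      _ ≤ ((4 : ℕ) : ℝ)⁻¹ := by
          rcases le_or_gt 4 ⌊z⌋₊ with h | h
          · have := sum_Ioc_inv_sq_le_sub (α := ℝ) (k := 4) (n := ⌊z⌋₊) (by norm_num) h
            have h3 : (0 : ℝ) ≤ (⌊z⌋₊ : ℝ)⁻¹ := by positivity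
            linarith
          · rw [Finset.Ioc_eq_empty (by omega)]
            simp
      _ ≤ 1 := by norm_num
  have hrep := rep_bet hS (I := I) (n := n) (bs := bs) (l0 := L) hlz.le (fun j _ => hIQ j) hdis
    (fun j _ q hq => by rw [hI, mem_filter] at hq; exact hq.2.2) hsq 0
  have hP0 : 0 < ∏ q ∈ Q, q := prod_pos fun q hq => (hQ q hq).1.pos
  have hequi := PRep.equi hP0 (B := range X) (M := X) (E := 1) zero_le_one (equiD_range _ X) hrep
  -- average
  have havg : (∑ a ∈ range (∏ q ∈ Q, q), bet I (fun j => bs + j) n (conf Q (hit1 hit) a 0)) /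
      ((∏ q ∈ Q, q : ℕ) : ℝ) = E1 p Q (fun ω => bet I (fun j => bs + j) n ω) := by
    have h1 := ER_eq hS one_pos (fun ω => bet I (fun j => bs + j) n (ω 0))
    have hZ : ZZ 1 κ Q = 1 := by
      unfold ZZ Zq
      simp
    rw [hZ, one_mul] at h1
    have h2 : ER Q (hit1 hit) (fun ω => bet I (fun j => bs + j) n (ω 0)) =
      (∑ a ∈ range (∏ q ∈ Q, q), bet I (fun j => bs + j) n (conf Q (hit1 hit) a 0)) /
      ((∏ q ∈ Q, q : ℕ) : ℝ) := rfl
    rw [← h2, h1]
    have h3 : (fun ω : Fin 1 → Finset ℕ => bet I (fun j => bs + j) n (ω 0) * excl Q ω) =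
        fun ω => ∏ i : Fin 1, bet I (fun j => bs + j) n (ω i) := by
      funext ω
      have h4 : excl Q ω = 1 := by
        unfold excl
        refine prod_eq_one fun q _ => ?_
        rw [if_pos]
        exact (card_le_univ _).trans (by simp)
      rw [h4]
      simp
    rw [h3]
    have h5 := EN_prod (N := 1) p Q (fun _ ω => bet I (fun j => bs + j) n ω)
    rw [h5]
    simp only [univ_unique, prod_const, card_singleton, pow_one]
    rfl
  rw [havg] at hequi
  have hcard : (G.card : ℝ) ≤ ∑ t ∈ range X, bet I (fun j => bs + j) n (conf Q (hit1 hit) t 0) := by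
    calc (G.card : ℝ) = ∑ t ∈ G, (1 : ℝ) := by simp
      _ = ∑ t ∈ G, bet I (fun j => bs + j) n (conf Q (hit1 hit) t 0) := by
          refine sum_congr rfl fun t ht => ?_
          have : conf Q (hit1 hit) t 0 = ∅ := by
            unfold conf
            rw [filter_eq_empty_iff]
            exact fun q hq => hGQ t ht q hq
          rw [this, bet_empty]
      _ ≤ _ := sum_le_sum_of_subset_of_nonneg hG fun t _ _ => bet_nonneg _ _ _ _
  have h6 := abs_le.1 hequi
  have h7 : (X : ℝ) * E1 p Q (fun ω => bet I (fun j => bs + j) n ω) ≤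
      X * (4 * ∏ q ∈ Q, (1 - p q)) := mul_le_mul_of_nonneg_left hmom (Nat.cast_nonneg X)
  have h8 : ∏ q ∈ Q, (1 - p q) = ∏ q ∈ Q, (1 - κ q / (q : ℝ)) :=
    prod_congr rfl fun q _ => by rw [hpq]
  rw [h8] at h7
  linarith [h6.2]

end Pool.Agent.ShSq
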