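import Pool.Agent.Lib.MP_acb0a8_nt.Pair
import Pool.Agent.Lib.ShSq.SieveK
import Pool.Agent.Lib.GapSieve.Presieve

/-!
# The number of prime pairs `t`, `t + h`
-/

open Finset Pool.Agent.GapSieve Pool.Agent.PosProp Pool.Agent.ACB

namespace Pool.Agent.ShSq

/-- `exp (4 ∑ 1 / q)`, `q` running over the prime divisors of `h` -/
noncomputable def EE (h : ℕ) : ℝ := Real.exp (∑ q ∈ h.primeFactors, 4 / (q : ℝ))

lemma EE_pos (h : ℕ) : 0 < EE h := Real.exp_pos _

lemma one_le_EE (h : ℕ) : 1 ≤ EE h := by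
  unfold EE
  exact Real.one_le_exp (sum_nonneg fun q _ => by positivity)

/-- `h / φ (h)` -/
noncomputable def FF (h : ℕ) : ℝ := ∏ q ∈ h.primeFactors, (1 - 1 / (q : ℝ))⁻¹

lemma hfac {q : ℕ} (hq : q.Prime) : (0 : ℝ) < 1 - 1 / (q : ℝ) ∧ 1 - 1 / (q : ℝ) ≤ 1 := by
  have h2 : (2 : ℝ) ≤ q := by exact_mod_cast hq.two_le
  have h3 : 1 / (q : ℝ) ≤ 1 / 2 := one_div_le_one_div_of_le (by norm_num) h2
  have h4 : 0 ≤ 1 / (q : ℝ) := by positivity
  exact ⟨by linarith, by linarith⟩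

lemma one_le_fac {q : ℕ} (hq : q.Prime) : (1 : ℝ) ≤ (1 - 1 / (q : ℝ))⁻¹ :=
  (one_le_inv₀ (hfac hq).1).2 (hfac hq).2

lemma one_le_FF (h : ℕ) : 1 ≤ FF h := by
  unfold FF
  calc (1 : ℝ) = ∏ q ∈ h.primeFactors, (1 : ℝ) := by simp
    _ ≤ _ := prod_le_prod (fun _ _ => zero_le_one) fun q hq =>
        one_le_fac (Nat.prime_of_mem_primeFactors hq)

lemma FF_pos (h : ℕ) : 0 < FF h := lt_of_lt_of_le one_pos (one_le_FF h)

lemma FF_mul {a b : ℕ} (ha : a ≠ 0) (hb : b ≠ 0) : FF (a * b) ≤ FF a * FF b := by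
  unfold FF
  rw [Nat.primeFactors_mul ha hb]
  have h := prod_union_inter (s₁ := a.primeFactors) (s₂ := b.primeFactors)
    (f := fun q : ℕ => (1 - 1 / (q : ℝ))⁻¹)
  have h2 : 1 ≤ ∏ q ∈ a.primeFactors ∩ b.primeFactors, (1 - 1 / (q : ℝ))⁻¹ := by
    calc (1 : ℝ) = ∏ q ∈ a.primeFactors ∩ b.primeFactors, (1 : ℝ) := by simp
      _ ≤ _ := prod_le_prod (fun _ _ => zero_le_one) fun q hq =>
          one_le_fac (Nat.prime_of_mem_primeFactors (mem_inter.1 hq).1)
  have h3 : 0 ≤ ∏ q ∈ a.primeFactors ∪ b.primeFactors, (1 - 1 / (q : ℝ))⁻¹ := by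
    refine prod_nonneg fun q hq => ?_
    rw [mem_union] at hq
    rcases hq with hq | hq <;>
      exact (zero_le_one.trans (one_le_fac (Nat.prime_of_mem_primeFactors hq)))
  rw [← h]
  exact le_mul_of_one_le_right h3 h2

lemma FF_sq_le (a : ℕ) : FF a ^ 2 ≤ EE a := by
  have h1 : FF a ≤ Real.exp (∑ q ∈ a.primeFactors, 2 / (q : ℝ)) := by
    unfold FF
    rw [Real.exp_sum]
    refine prod_le_prod (fun q hq => ?_) fun q hq => ?_
    · exact (zero_le_one.trans (one_le_fac (Nat.prime_of_mem_primeFactors hq)))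
    · have hp := Nat.prime_of_mem_primeFactors hq
      have hq2 : (2 : ℝ) ≤ q := by exact_mod_cast hp.two_le
      have h3 : 1 / (q : ℝ) ≤ 1 / 2 := one_div_le_one_div_of_le (by norm_num) hq2
      have h4 := Pool.Agent.Lib.MP_0bb3d8_nt.exp_neg_two_mul_le
        (show (0 : ℝ) ≤ 1 / (q : ℝ) by positivity) h3
      have h5 : 2 / (q : ℝ) = -(-(2 * (1 / (q : ℝ)))) := by ring
      rw [h5, Real.exp_neg]
      exact inv_anti₀ (Real.exp_pos _) h4
  refine (pow_le_pow_left₀ (FF_pos a).le h1 2).trans (le_of_eq ?_)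
  unfold EE
  rw [← Real.exp_nat_mul, mul_sum]
  congr 1
  refine sum_congr rfl fun q _ => ?_
  push_cast
  ring

lemma FF_sq_le' (a : ℕ) : FF a ^ 2 ≤ EE a ^ 2 := by
  refine (FF_sq_le a).trans ?_
  have := one_le_EE a
  nlinarith

lemma FF_eq {m : ℕ} (hm : 1 ≤ m) : FF m * (Nat.totient m : ℝ) = m := by
  have h0 : (Nat.totient m : ℝ) = m * ∏ p ∈ m.primeFactors, (1 - 1 / (p : ℝ)) := by
    have h := Nat.totient_eq_mul_prod_factors m
    have h' : ((Nat.totient m : ℚ) : ℝ) = ((m * ∏ p ∈ m.primeFactors, (1 - (p : ℚ)⁻¹) : ℚ) : ℝ) := by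
      rw [h]
    push_cast at h'
    rw [h']
    simp only [one_div]
  have h1 : 0 < ∏ p ∈ m.primeFactors, (1 - 1 / (p : ℝ)) :=
    prod_pos fun q hq => (hfac (Nat.prime_of_mem_primeFactors hq)).1
  rw [h0]
  unfold FF
  rw [prod_inv_distrib]
  field_simp

open Classical in
/-- the number of prime pairs with difference `h` -/
lemma pair_sieve {bs : ℕ} (hbs : Real.exp (66 * 8) ≤ 4 ^ bs) {h z : ℕ} (hh : h ≠ 0) (hz : 2 ≤ z)
    (X : ℕ) :
    (((Finset.Icc 1 X).filter fun t => t.Prime ∧ (t + h).Prime).card : ℝ) ≤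
      z + (4 * (X + 1) * (9 * FF h / Real.log (z + 1) ^ 2) +
      Real.exp (12 * (bs + 1) * Real.log z + 1)) := by
  set P := (Finset.Ioc 0 z).filter Nat.Prime with hP
  set E : Finset ℕ := {2, 3} with hE
  set Q := P \ E with hQ
  have hEp : ∀ p ∈ E, p.Prime := by
    intro p hp
    rw [hE, mem_insert, mem_singleton] at hp
    rcases hp with rfl | rfl
    · exact Nat.prime_two
    · exact Nat.prime_three
  have hQp : ∀ q ∈ Q, q.Prime ∧ 5 ≤ q ∧ q ≤ z := by
    intro q hq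
    rw [hQ, mem_sdiff, hP, mem_filter, mem_Ioc, hE, mem_insert, mem_singleton, not_or] at hq
    obtain ⟨⟨⟨h0, h1⟩, h2⟩, h3, h4⟩ := hq
    have h6 : q ≠ 4 := by
      rintro rfl
      exact absurd h2 (by decide)
    have h7 := h2.two_le
    refine ⟨h2, by omega, h1⟩
  set S := (Finset.Icc 1 X).filter fun t => t.Prime ∧ (t + h).Prime with hS
  set G := S.filter fun n => z < n with hG
  have hcard : (S.card : ℝ) ≤ z + G.card := by
    have h1 : S ⊆ Finset.Icc 1 z ∪ G := by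
      intro n hn
      rw [mem_union]
      by_cases hz : n ≤ z
      · left
        rw [hS, mem_filter, mem_Icc] at hn
        exact mem_Icc.2 ⟨hn.1.1, hz⟩
      · right
        rw [hG, mem_filter]
        exact ⟨hn, by omega⟩
    have h2 := (card_le_card h1).trans (card_union_le _ _)
    rw [Nat.card_Icc] at h2
    have h3 : S.card ≤ z + G.card := by omega
    exact_mod_cast h3
  have hz2 : (2 : ℝ) ≤ (z : ℝ) := by exact_mod_cast hz
  have hG1 : G ⊆ range (X + 1) := by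
    intro n hn
    rw [hG, mem_filter, hS, mem_filter, mem_Icc] at hn
    rw [mem_range]; omega
  have hG2 : ∀ t ∈ G, ∀ q ∈ Q, ¬ hitP 1 0 1 h q t := by
    intro t ht q hq hcon
    rw [hG, mem_filter, hS, mem_filter, mem_Icc] at ht
    obtain ⟨⟨⟨_, _⟩, p1, p2⟩, hzt⟩ := ht
    obtain ⟨hqp, _, hqz⟩ := hQp q hq
    unfold hitP at hcon
    rw [one_mul, add_zero] at hcon
    rcases hcon with h1 | h1
    · have h1 := (Nat.prime_dvd_prime_iff_eq hqp p1).1 h1
      omega
    · have h1 := (Nat.prime_dvd_prime_iff_eq hqp p2).1 h1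
      omega
  have hQ5 : ∀ q ∈ Q, q.Prime ∧ 5 ≤ q ∧ (q : ℝ) ≤ (z : ℝ) := by
    intro q hq
    obtain ⟨hqp, h1, h2⟩ := hQp q hq
    exact ⟨hqp, h1, by exact_mod_cast h2⟩
  set κ : ℕ → ℕ := fun q => if q ∣ h then 1 else 2 with hκ
  have hκ2 : ∀ q, κ q ≤ 2 := by
    intro q
    simp only [hκ]
    split_ifs <;> omega
  have hcnt : ∀ q ∈ Q, hitCount (hit1 (hitP 1 0 1 h)) q 0 = κ q := by
    intro q hq
    obtain ⟨hqp, h5, _⟩ := hQp q hq
    by_cases hqh : q ∣ h
    · have hk1 : κ q = 1 := by simp only [hκ]; rw [if_pos hqh]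
      rw [hk1]
      have hset : (range q).filter (fun t => hit1 (hitP 1 0 1 h) q 0 t) = {0} := by
        ext t
        rw [mem_filter, mem_range, mem_singleton]
        unfold hit1 hitP
        rw [one_mul, add_zero]
        constructor
        · rintro ⟨ht, h1⟩
          have h2 : q ∣ t := by
            rcases h1 with h1 | h1
            · exact h1
            · exact (Nat.dvd_add_left hqh).1 h1
          exact Nat.eq_zero_of_dvd_of_lt h2 ht
        · rintro rfl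
          exact ⟨hqp.pos, Or.inl (dvd_zero q)⟩
      unfold hitCount
      have h3 : ((range q).filter (fun t => hit1 (hitP 1 0 1 h) q 0 t)).card = 1 := by
        rw [hset, card_singleton]
      convert h3
    · have hk2 : κ q = 2 := by simp only [hκ]; rw [if_neg hqh]
      rw [hk2]
      refine hitP_cnt hqp ?_ ?_ ?_
      · intro h1; have := Nat.le_of_dvd one_pos h1; omega
      · intro h1; have := Nat.le_of_dvd one_pos h1; omega
      · intro h1
        apply hqh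
        have e : ((1 : ℕ) : ℤ) * ((0 : ℕ) : ℤ) - ((1 : ℕ) : ℤ) * (h : ℤ) = -(h : ℤ) := by simp
        rw [e, dvd_neg] at h1
        exact_mod_cast h1
  have hsv := sieveK_aux hbs z hz2 Q (hitP 1 0 1 h) hQ5 (fun q _ t => hitP_per t) κ hκ2 hcnt
    (X + 1) G hG1 hG2
  have hprod : ∏ q ∈ Q, (1 - κ q / (q : ℝ)) ≤ 9 * FF h / Real.log (z + 1) ^ 2 := by
    have e1 : ∏ q ∈ Q, (1 - κ q / (q : ℝ)) ≤
        ∏ q ∈ Q, ((1 - 1 / (q : ℝ)) ^ 2 * if q ∣ h then (1 - 1 / (q : ℝ))⁻¹ else 1) := by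
      refine prod_le_prod (fun q hq => ?_) fun q hq => ?_
      · have h5 : (5 : ℝ) ≤ q := by exact_mod_cast (hQ5 q hq).2.1
        have : (κ q : ℝ) / (q : ℝ) ≤ 1 := by
          rw [div_le_one (by linarith)]
          have : (κ q : ℝ) ≤ 2 := by exact_mod_cast hκ2 q
          linarith
        linarith
      · have hf := hfac (hQ5 q hq).1
        by_cases hqh : q ∣ h
        · have hk1 : κ q = 1 := by simp only [hκ]; rw [if_pos hqh]
          rw [hk1, if_pos hqh]
          have e : (1 - 1 / (q : ℝ)) ^ 2 * (1 - 1 / (q : ℝ))⁻¹ = 1 - 1 / (q : ℝ) := by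
            rw [sq, mul_assoc, mul_inv_cancel₀ hf.1.ne', mul_one]
          rw [e]
          push_cast
          exact le_refl _
        · have hk2 : κ q = 2 := by simp only [hκ]; rw [if_neg hqh]
          rw [hk2, if_neg hqh, mul_one]
          have : (1 - 1 / (q : ℝ)) ^ 2 = 1 - 2 / q + (1 / (q : ℝ)) ^ 2 := by ring
          rw [this]
          have : 0 ≤ (1 / (q : ℝ)) ^ 2 := by positivity
          push_cast
          linarith
    rw [prod_mul_distrib, prod_pow, ← prod_filter] at e1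
    have e2 := Pool.Agent.Presieve.prod_excl_le z (by omega) E hEp
    have e4 : ∏ q ∈ E, (1 - 1 / (q : ℝ)) = 1 / 3 := by
      rw [hE, prod_pair (by norm_num)]
      norm_num
    rw [e4] at e2
    have hlog : 0 < Real.log ((z : ℝ) + 1) := Real.log_pos (by linarith)
    have e9 : 0 ≤ ∏ q ∈ Q, (1 - 1 / (q : ℝ)) := prod_nonneg fun q hq => (hfac (hQ5 q hq).1).1.le
    have e8 : (∏ q ∈ Q, (1 - 1 / (q : ℝ))) ^ 2 ≤ 9 / Real.log (z + 1) ^ 2 := by
      refine (pow_le_pow_left₀ e9 e2 2).trans (le_of_eq ?_)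
      field_simp
      norm_num
    have e10 : ∏ q ∈ Q.filter (fun q => q ∣ h), (1 - 1 / (q : ℝ))⁻¹ ≤ FF h := by
      unfold FF
      have hsub : Q.filter (fun q => q ∣ h) ⊆ h.primeFactors := by
        intro q hq
        rw [mem_filter] at hq
        exact Nat.mem_primeFactors.2 ⟨(hQ5 q hq.1).1, hq.2, hh⟩
      rw [← prod_sdiff hsub]
      refine le_mul_of_one_le_left ?_ ?_
      · exact prod_nonneg fun q hq => zero_le_one.trans
          (one_le_fac (Nat.prime_of_mem_primeFactors (hsub hq)))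
      · calc (1 : ℝ) = ∏ q ∈ h.primeFactors \ Q.filter (fun q => q ∣ h), (1 : ℝ) := by simp
          _ ≤ _ := prod_le_prod (fun _ _ => zero_le_one) fun q hq =>
              one_le_fac (Nat.prime_of_mem_primeFactors (mem_sdiff.1 hq).1)
    have e11 : 0 ≤ ∏ q ∈ Q.filter (fun q => q ∣ h), (1 - 1 / (q : ℝ))⁻¹ :=
      prod_nonneg fun q hq => zero_le_one.trans (one_le_fac (hQ5 q (mem_filter.1 hq).1).1)
    refine e1.trans ((mul_le_mul e8 e10 e11 (by positivity)).trans (le_of_eq ?_))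
    ring
  have h9 : 4 * ((X + 1 : ℕ) : ℝ) * ∏ q ∈ Q, (1 - κ q / (q : ℝ)) ≤
      4 * ((X + 1 : ℕ) : ℝ) * (9 * FF h / Real.log (z + 1) ^ 2) :=
    mul_le_mul_of_nonneg_left hprod (by positivity)
  push_cast at h9 hsv ⊢
  linarith

end Pool.Agent.ShSq
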